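import Mathlib

namespace Pool.Agent.Results.MP_f8a98e_co.Counter

/-- The entry `w_j` (for `1 ≤ j ≤ n`) of the word `w = [w_1, ..., w_n]`. -/
def val (w : List ℕ) (j : ℕ) : ℕ := w.getD (j - 1) 0

/-- The double descent set of the word `w`. -/
def DDes (w : List ℕ) : Finset ℕ :=
  (Finset.Icc 2 (w.length - 1)).filter fun i => val w (i - 1) > val w i ∧ val w i > val w (i + 1)

/-- `dd(I; n)`: the number of rearrangements `w` of `[1, ..., n]` with double descent set `I`. -/
noncomputable def dd (I : Finset ℕ) (n : ℕ) : ℕ :=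
  {w : List ℕ | w.Perm (List.range' 1 n) ∧ DDes w = I}.ncard

def dl (w : List ℕ) : List ℕ :=
  (List.range' 2 (w.length - 1 + 1 - 2)).filter fun i =>
    decide (val w (i - 1) > val w i ∧ val w i > val w (i + 1))

lemma dl_iff (w : List ℕ) (i : ℕ) : DDes w = {i} ↔ dl w = [i] := by
  rw [← List.perm_singleton, ← Multiset.coe_eq_coe, ← Finset.val_inj]
  rfl

lemma dd_eq (i n : ℕ) :
    dd {i} n = ((List.range' 1 n).permutations'.filter fun w => dl w == [i]).length := by
  have h : ((List.range' 1 n).permutations').Nodup :=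
    (List.permutations_perm_permutations' _).nodup_iff.mp
      (List.nodup_permutations _ List.nodup_range')
  rw [← List.toFinset_card_of_nodup (h.filter _), ← Set.ncard_coe_finset, dd]
  congr 1
  ext w
  simp [dl_iff]

lemma h2 : dd {2} 7 = 426 := by rw [dd_eq]; decide +kernel
lemma h3 : dd {3} 7 = 363 := by rw [dd_eq]; decide +kernel
lemma h4 : dd {4} 7 = 462 := by rw [dd_eq]; decide +kernel
lemma h5 : dd {5} 7 = 363 := by rw [dd_eq]; decide +kernel

theorem result : ¬ ∀ n i : ℕ, 1 ≤ n → 1 ≤ i → (i : ℤ) < ⌈(n : ℚ) / 2⌉ - 1 →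
    (Even i → (dd {i} n : ℚ) / dd {i + 1} n > (dd {i + 2} n : ℚ) / dd {i + 3} n) ∧
    (Odd i → (dd {i} n : ℚ) / dd {i + 1} n < (dd {i + 2} n : ℚ) / dd {i + 3} n) := by
  intro h
  have h0 : ⌈((7 : ℕ) : ℚ) / 2⌉ = 4 := by
    rw [Int.ceil_eq_iff]
    norm_num
  have := (h 7 2 (by norm_num) (by norm_num) (by rw [h0]; norm_num)).1 (by norm_num)
  rw [h2, show 2 + 1 = 3 from rfl, h3, show 2 + 2 = 4 from rfl, h4, show 2 + 3 = 5 from rfl,
    h5] at this
  norm_num at this

end Pool.Agent.Results.MP_f8a98e_co.Counter
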